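import Pool.Agent.H524Z.Chq.Crit

open MeasureTheory Filter Topology Set

namespace Pool.Agent.H524Z.Chq

variable {K I : Type} [TopologicalSpace K] [T2Space K] [CompactSpace K] [MeasurableSpace K]
  [BorelSpace K]

/-- barycenter map -/
noncomputable def bary (c : I → C(K, ℝ)) (ν : ProbabilityMeasure K) : I → ℝ :=
  fun i => ∫ k, c i k ∂(ν : Measure K)

/-- the set of barycenters -/
def hull (c : I → C(K, ℝ)) : Set (I → ℝ) := range (bary c)

/-- evaluation map -/
def ev (c : I → C(K, ℝ)) (k : K) : I → ℝ := fun i => c i k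

omit [T2Space K] in
theorem cint (f : C(K, ℝ)) (m : Measure K) [IsFiniteMeasure m] : Integrable f m :=
  (BoundedContinuousFunction.mkOfCompact f).integrable m

theorem isCompact_hull (c : I → C(K, ℝ)) : IsCompact (hull c) :=
  isCompact_range (continuous_pi fun i =>
    ProbabilityMeasure.continuous_integral_continuousMap (c i))

omit [T2Space K] in
theorem convex_hull (c : I → C(K, ℝ)) : Convex ℝ (hull c) := by
  rintro _ ⟨μ, rfl⟩ _ ⟨ν, rfl⟩ a b ha hb hab
  lift a to NNReal using ha
  lift b to NNReal using hb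
  have hab' : a + b = 1 := by exact_mod_cast hab
  refine ⟨⟨a • (μ : Measure K) + b • (ν : Measure K), ⟨?_⟩⟩, ?_⟩
  · simp only [Measure.coe_add, Measure.coe_smul, Pi.add_apply, Pi.smul_apply, measure_univ]
    simp only [ENNReal.smul_def, smul_eq_mul, mul_one]
    exact_mod_cast hab'
  · ext i
    simp only [bary, ProbabilityMeasure.coe_mk, Pi.add_apply, Pi.smul_apply, smul_eq_mul]
    rw [integral_add_measure ((cint _ _).smul_measure_nnreal) ((cint _ _).smul_measure_nnreal),
      integral_smul_nnreal_measure, integral_smul_nnreal_measure]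
    rfl

omit [CompactSpace K] in
theorem ev_mem_hull (c : I → C(K, ℝ)) (k : K) : ev c k ∈ hull c := by
  refine ⟨⟨Measure.dirac k, inferInstance⟩, ?_⟩
  ext i
  simp [bary, ev]

omit [T2Space K] in
theorem bary_lin (c : I → C(K, ℝ)) (ν : ProbabilityMeasure K) (φ : (I → ℝ) →L[ℝ] ℝ) :
    ∫ k, φ (ev c k) ∂(ν : Measure K) = φ (bary c ν) := by
  have hcont : Continuous (ev c) := continuous_pi fun i => (c i).continuous
  have hmem : φ.toLinearMap ∈ Submodule.span ℝ
      (range fun i : I => (LinearMap.proj i : (I → ℝ) →ₗ[ℝ] ℝ)) :=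
    (LinearMap.mem_span_iff_continuous _).2 φ.continuous
  suffices h : ∀ ψ ∈ Submodule.span ℝ (range fun i : I => (LinearMap.proj i : (I → ℝ) →ₗ[ℝ] ℝ)),
      Integrable (fun k => ψ (ev c k)) (ν : Measure K) ∧
      ∫ k, ψ (ev c k) ∂(ν : Measure K) = ψ (bary c ν) from (h _ hmem).2
  intro ψ hψ
  induction hψ using Submodule.span_induction with
  | mem x hx =>
    obtain ⟨i, rfl⟩ := hx
    exact ⟨cint (c i) _, rfl⟩
  | zero => simp
  | add x y _ _ hx hy =>
    refine ⟨hx.1.add hy.1, ?_⟩
    simp only [LinearMap.add_apply]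
    rw [integral_add hx.1 hy.1, hx.2, hy.2]
  | smul a x _ hx =>
    refine ⟨hx.1.const_mul a, ?_⟩
    simp only [LinearMap.smul_apply, smul_eq_mul]
    rw [integral_const_mul, hx.2]

omit [T2Space K] in
/-- extreme points are evaluations -/
theorem extreme_subset (c : I → C(K, ℝ)) : extremePoints ℝ (hull c) ⊆ range (ev c) := by
  rintro y ⟨⟨ν, rfl⟩, hy⟩
  -- conditional barycenters
  have key : ∀ B : Set K, MeasurableSet B → ∀ i,
      ∫ k in B, (c i k - bary c ν i) ∂(ν : Measure K) = 0 := by
    intro B hB i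
    by_cases h0 : (ν : Measure K) B = 0
    · rw [Measure.restrict_eq_zero.2 h0]; simp
    by_cases h1 : (ν : Measure K) Bᶜ = 0
    · have : (ν : Measure K).restrict B = ν := Measure.restrict_eq_self_of_ae_mem h1
      rw [this, integral_sub (cint _ _) (integrable_const _)]
      simp [bary]
    have hc : ∀ D : Set K, MeasurableSet D → (ν : Measure K) D ≠ 0 →
        ∃ z ∈ hull c, ∀ j, (ν : Measure K).real D * z j = ∫ k in D, c j k ∂(ν : Measure K) := by
      intro D hD hD0
      have := ProbabilityTheory.cond_isProbabilityMeasure (μ := (ν : Measure K)) hD0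
      refine ⟨bary c ⟨ProbabilityTheory.cond (ν : Measure K) D, this⟩, ⟨_, rfl⟩, fun j => ?_⟩
      simp only [bary, ProbabilityMeasure.coe_mk, ProbabilityTheory.cond, integral_smul_measure,
        smul_eq_mul, ENNReal.toReal_inv, measureReal_def]
      have : ((ν : Measure K) D).toReal ≠ 0 := by
        rw [ENNReal.toReal_ne_zero]; exact ⟨hD0, measure_ne_top _ _⟩
      field_simp
    obtain ⟨z1, hz1, e1⟩ := hc B hB h0
    obtain ⟨z2, hz2, e2⟩ := hc Bᶜ hB.compl h1
    have p1 : 0 < (ν : Measure K).real B := ENNReal.toReal_pos h0 (measure_ne_top _ _)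
    have p2 : 0 < (ν : Measure K).real Bᶜ := ENNReal.toReal_pos h1 (measure_ne_top _ _)
    have hz : z1 = bary c ν := by
      refine hy hz1 hz2 ⟨_, _, p1, p2, by rw [measureReal_add_measureReal_compl hB, probReal_univ], ?_⟩
      ext j
      simp only [Pi.add_apply, Pi.smul_apply, smul_eq_mul, e1, e2]
      exact integral_add_compl hB (cint _ _)
    rw [integral_sub (cint _ _).integrableOn (integrable_const _), ← e1, hz]
    simp [measureReal_def]
  have hae : ∀ i, ∀ᵐ k ∂(ν : Measure K), c i k = bary c ν i := by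
    intro i
    have := ae_eq_zero_of_forall_setIntegral_eq_of_sigmaFinite (μ := (ν : Measure K))
      (f := fun k => c i k - bary c ν i)
      (fun s _ _ => ((cint _ _).sub (integrable_const _)).integrableOn) (fun s hs _ => key s hs i)
    filter_upwards [this] with k hk
    simpa [sub_eq_zero] using hk
  by_contra hne
  have hcov : (univ : Set K) ⊆ ⋃ i, {k | c i k ≠ bary c ν i} := by
    intro k _
    by_contra hk
    simp only [mem_iUnion, mem_ofPred_eq, not_exists, not_not] at hk
    exact hne ⟨k, funext hk⟩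
  obtain ⟨t, ht⟩ := isCompact_univ.elim_finite_subcover _
    (fun i => isOpen_ne_fun (c i).continuous continuous_const) hcov
  have : ∀ᵐ k ∂(ν : Measure K), ∀ i ∈ t, c i k = bary c ν i :=
    (ae_ball_iff t.countable_toSet).2 fun i _ => hae i
  obtain ⟨k, hk⟩ := this.exists
  have := ht (mem_univ k)
  simp only [mem_iUnion, mem_ofPred_eq] at this
  obtain ⟨i, hi, hi'⟩ := this
  exact hi' (hk i hi)

/-- a peak-type criterion for extreme points -/
theorem ev_extreme (c : I → C(K, ℝ)) (k₀ : K)
    (h : ∀ i, ∀ ε > 0, ∃ (j : I) (C : ℝ), c j k₀ = 1 ∧ (∀ k, c j k ≤ 1) ∧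
      ∀ k, |c i k - c i k₀| ≤ ε + C * (1 - c j k)) :
    ev c k₀ ∈ extremePoints ℝ (hull c) := by
  refine ⟨ev_mem_hull c k₀, ?_⟩
  rintro _ ⟨μ, rfl⟩ _ ⟨ν, rfl⟩ ⟨a, b, ha, hb, hab, he⟩
  ext i
  refine eq_of_forall_dist_le fun ε hε => ?_
  obtain ⟨j, C, h1, h2, h3⟩ := h i ε hε
  have hle : ∀ m : ProbabilityMeasure K, bary c m j ≤ 1 := fun m => by
    have := integral_mono (μ := (m : Measure K)) (cint (c j) _) (integrable_const (1 : ℝ)) h2
    simpa [bary] using this
  have hj := congrFun he j
  simp only [Pi.add_apply, Pi.smul_apply, smul_eq_mul, ev, h1] at hj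
  have hμ : bary c μ j = 1 := by nlinarith [hle μ, hle ν]
  have e1 : bary c μ i - c i k₀ = ∫ k, (c i k - c i k₀) ∂(μ : Measure K) := by
    rw [integral_sub (cint _ _) (integrable_const _)]; simp [bary]
  have i2 : Integrable (fun k => 1 - c j k) (μ : Measure K) :=
    (integrable_const _).sub (cint _ _)
  have e2 : ∫ k, (ε + C * (1 - c j k)) ∂(μ : Measure K) = ε := by
    rw [integral_add (integrable_const _) (i2.const_mul C), integral_const_mul,
      integral_sub (integrable_const _) (cint _ _)]
    have : ∫ k, c j k ∂(μ : Measure K) = 1 := hμ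
    simp [this]
  rw [Real.dist_eq]
  change |bary c μ i - c i k₀| ≤ ε
  rw [e1, ← e2]
  refine abs_integral_le_integral_abs.trans (integral_mono ?_ ?_ h3)
  · exact ((cint _ _).sub (integrable_const _)).abs
  · exact (integrable_const _).add (i2.const_mul C)

/-- The main abstract statement. -/
theorem simplex_and_ext (c : I → C(K, ℝ)) (p q : K → extremePoints ℝ (hull c))
    (hpq : ∀ k i, c i k = ((p k : I → ℝ) i + (q k : I → ℝ) i) / 2)
    (happ : ∀ g : extremePoints ℝ (hull c) → ℝ, Continuous g → (∃ M : ℝ, ∀ e, |g e| ≤ M) →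
      ∃ (s : ℕ → I) (M : ℝ), (∀ n k, |c (s n) k| ≤ M) ∧
        ∀ k, Tendsto (fun n => c (s n) k) atTop (𝓝 ((g (p k) + g (q k)) / 2))) :
    IsChoquetSimplex (hull c) ∧ AffineBaireOneExt (hull c) := by
  have hX := isCompact_hull c
  have hν : ∀ x : hull c, ∃ ν : ProbabilityMeasure K, bary c ν = x := fun x => x.2
  choose ν hν using hν
  have key : ∀ g : extremePoints ℝ (hull c) → ℝ, Continuous g → (∃ M : ℝ, ∀ e, |g e| ≤ M) →
      (∀ m : ProbabilityMeasure K, Integrable (fun k => (g (p k) + g (q k)) / 2) (m : Measure K)) ∧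
      ∃ (s : ℕ → I) (M : ℝ), (∀ n (x : hull c), |(x : I → ℝ) (s n)| ≤ M) ∧
        (∀ k, Tendsto (fun n => c (s n) k) atTop (𝓝 ((g (p k) + g (q k)) / 2))) ∧
        ∀ x : hull c, Tendsto (fun n => (x : I → ℝ) (s n)) atTop
          (𝓝 (∫ k, (g (p k) + g (q k)) / 2 ∂(ν x : Measure K))) := by
    intro g hg hb
    obtain ⟨s, M, hM, hs⟩ := happ g hg hb
    have hmeas : ∀ (m : ProbabilityMeasure K) n,
        AEStronglyMeasurable (fun k => c (s n) k) (m : Measure K) := fun m n =>
      (c (s n)).continuous.aestronglyMeasurable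
    refine ⟨fun m => ?_, s, M, fun n x => ?_, hs, fun x => ?_⟩
    · refine Integrable.mono' (integrable_const M)
        (aestronglyMeasurable_of_tendsto_ae atTop (hmeas m) (Eventually.of_forall hs)) ?_
      exact Eventually.of_forall fun y => le_of_tendsto' (hs y).abs fun n => hM n y
    · rw [← hν x]
      have := norm_integral_le_of_norm_le_const (μ := (ν x : Measure K))
        (f := fun k => c (s n) k) (C := M) (Eventually.of_forall fun k => hM n k)
      simpa [bary] using this
    · have := tendsto_integral_of_dominated_convergence (μ := (ν x : Measure K))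
        (F := fun n k => c (s n) k) (fun _ => M) (hmeas _) (integrable_const M)
        (fun n => Eventually.of_forall fun y => hM n y) (Eventually.of_forall hs)
      refine this.congr fun n => ?_
      rw [← hν x]; rfl
  let inc : extremePoints ℝ (hull c) → hull c := fun e => ⟨e, extremePoints_subset e.2⟩
  have hinc : Continuous inc := continuous_subtype_val.subtype_mk _
  have : CompactSpace (hull c) := isCompact_iff_compactSpace.1 hX
  have hF : ∀ f : C(hull c, ℝ), Continuous (fun e => f (inc e)) ∧ ∃ M : ℝ, ∀ e, |f (inc e)| ≤ M :=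
    fun f => ⟨f.continuous.comp hinc, ‖f‖, fun e => f.norm_coe_le_norm _⟩
  constructor
  · let Λ : hull c → C(hull c, ℝ) →ₗ[ℝ] ℝ := fun x =>
      { toFun f := ∫ k, (f (inc (p k)) + f (inc (q k))) / 2 ∂(ν x : Measure K)
        map_add' f g := by
          rw [← integral_add ((key _ (hF f).1 (hF f).2).1 _) ((key _ (hF g).1 (hF g).2).1 _)]
          congr 1; ext k; simp only [ContinuousMap.add_apply]; ring
        map_smul' a f := by
          simp only [ContinuousMap.smul_apply, smul_eq_mul, RingHom.id_apply]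
          rw [← integral_const_mul]
          congr 1; ext k; ring }
    refine isChoquetSimplex_of hX (convex_hull c) Λ (fun x f hf => ?_) (fun x => ?_)
      (fun x φ => ?_) (fun f => ?_)
    · exact integral_nonneg fun k => div_nonneg (add_nonneg (hf _) (hf _)) (by norm_num)
    · simp [Λ]
    · change ∫ k, (φ (p k) + φ (q k)) / 2 ∂(ν x : Measure K) = φ x
      rw [← hν x, ← bary_lin]
      congr 1; ext k
      have : ev c k = (1 / 2 : ℝ) • ((p k : I → ℝ) + (q k : I → ℝ)) := by
        ext i; simp only [ev, hpq k i, Pi.smul_apply, Pi.add_apply, smul_eq_mul]; ring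
      rw [this, map_smul, map_add, smul_eq_mul]; ring
    · obtain ⟨-, s, M, hM, -, hs⟩ := key _ (hF f).1 (hF f).2
      exact ⟨fun n => ContinuousLinearMap.proj (s n), M, hM, hs⟩
  · intro g hg hb
    obtain ⟨-, s, M, hM, hk, hs⟩ := key g hg hb
    refine ⟨_, fun n x => (x : I → ℝ) (s n), M, fun n => ⟨(continuous_apply (s n)).comp continuous_subtype_val, ?_, hM n⟩, hs, fun e => ?_⟩
    · exact isAffineFn_lin (ContinuousLinearMap.proj (R := ℝ) (φ := fun _ : I => ℝ) (s n))
    · obtain ⟨k, hke⟩ := extreme_subset c e.2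
      have hmid : (e : I → ℝ) ∈ openSegment ℝ (p k : I → ℝ) (q k) := by
        refine ⟨1 / 2, 1 / 2, by norm_num, by norm_num, by norm_num, ?_⟩
        rw [← hke]
        ext i; simp only [ev, hpq k i, Pi.smul_apply, Pi.add_apply, smul_eq_mul]; ring
      obtain ⟨e1, e2⟩ := (mem_extremePoints.1 e.2).2 _ (p k).2.1 _ (q k).2.1 hmid
      have e1' : p k = e := Subtype.ext e1
      have e2' : q k = e := Subtype.ext e2
      refine tendsto_nhds_unique (hs (inc e)) ?_
      have := hk k
      rw [e1', e2', add_self_div_two] at this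
      refine this.congr fun n => ?_
      exact congrFun hke (s n)

end Pool.Agent.H524Z.Chq
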