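import Pool.Agent.H524Z.Chq.Defs

open MeasureTheory Filter Topology Set
open scoped CompactlySupported

namespace Pool.Agent.H524Z.Chq

variable {V : Type} [AddCommGroup V] [Module ℝ V] [TopologicalSpace V]

theorem AffineBaireOneExt.affineBaireExt {X : Set V} (h : AffineBaireOneExt X) :
    AffineBaireExt X := by
  intro g hg hb
  obtain ⟨f, F, M, hF, hlim, hext⟩ := h g hg hb
  refine ⟨f, ?_, ?_, hext⟩
  · intro x y z l h0 h1 hz
    have h2 : Tendsto (fun n => F n z) atTop (𝓝 (l * f x + (1 - l) * f y)) := by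
      have := ((hlim x).const_mul l).add ((hlim y).const_mul (1 - l))
      refine this.congr fun n => ?_
      exact ((hF n).2.1 x y z l h0 h1 hz).symm
    exact tendsto_nhds_unique (hlim z) h2
  · intro S h1 h2
    exact h2 F f (fun n => h1 _ (hF n).1) hlim

omit [TopologicalSpace V] in
theorem IsConvexFn.add {X : Set V} {f g : X → ℝ} (hf : IsConvexFn X f) (hg : IsConvexFn X g) :
    IsConvexFn X (fun x => f x + g x) := by
  intro x y z l h0 h1 hz
  have := hf x y z l h0 h1 hz
  have := hg x y z l h0 h1 hz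
  simp only
  nlinarith

omit [TopologicalSpace V] in
theorem IsConvexFn.max {X : Set V} {f g : X → ℝ} (hf : IsConvexFn X f) (hg : IsConvexFn X g) :
    IsConvexFn X (fun x => max (f x) (g x)) := by
  intro x y z l h0 h1 hz
  have a1 := hf x y z l h0 h1 hz
  have a2 := hg x y z l h0 h1 hz
  have h1' : 0 ≤ 1 - l := by linarith
  simp only
  apply max_le
  · refine a1.trans (add_le_add ?_ ?_)
    · exact mul_le_mul_of_nonneg_left (le_max_left _ _) h0
    · exact mul_le_mul_of_nonneg_left (le_max_left _ _) h1'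
  · refine a2.trans (add_le_add ?_ ?_)
    · exact mul_le_mul_of_nonneg_left (le_max_right _ _) h0
    · exact mul_le_mul_of_nonneg_left (le_max_right _ _) h1'

theorem isConvexFn_lin {X : Set V} (φ : V →L[ℝ] ℝ) (c : ℝ) :
    IsConvexFn X (fun x => φ x + c) := by
  intro x y z l _ _ hz
  simp only [hz, map_add, map_smul, smul_eq_mul]
  linarith

theorem isAffineFn_lin {X : Set V} (φ : V →L[ℝ] ℝ) :
    IsAffineFn X (fun x => φ x) := by
  intro x y z l _ _ hz
  simp only [hz, map_add, map_smul, smul_eq_mul]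

variable [IsTopologicalAddGroup V] [ContinuousSMul ℝ V] [LocallyConvexSpace ℝ V] [T2Space V]

/-- the Choquet ordering is antisymmetric -/
theorem choquet_antisymm {X : Set V} (hX : IsCompact X) {μ ν : @Measure X (borel X)}
    (hμ : IsRadonProb X μ) (hν : IsRadonProb X ν) (h1 : ChoquetLE X μ ν) (h2 : ChoquetLE X ν μ) :
    μ = ν := by
  let : MeasurableSpace X := borel X
  have : BorelSpace X := ⟨rfl⟩
  have : CompactSpace X := isCompact_iff_compactSpace.1 hX
  have := hμ.1
  have := hμ.2
  have := hν.1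
  have := hν.2
  have : μ.Regular := inferInstance
  have : ν.Regular := inferInstance
  have hint : ∀ (f : C(X, ℝ)) (m : Measure X) [IsFiniteMeasure m], Integrable f m :=
    fun f m _ => (BoundedContinuousFunction.mkOfCompact f).integrable m
  let L : Set C(X, ℝ) := {f | ∃ g h : C(X, ℝ), IsConvexFn X g ∧ IsConvexFn X h ∧ f = g - h}
  have hneg : ∀ f ∈ L, -f ∈ L := by
    rintro f ⟨g, h, hg, hh, rfl⟩
    exact ⟨h, g, hh, hg, by simp⟩
  have hsup : ∀ f ∈ L, ∀ g ∈ L, f ⊔ g ∈ L := by
    rintro f ⟨g1, h1, hg1, hh1, rfl⟩ g ⟨g2, h2, hg2, hh2, rfl⟩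
    refine ⟨(g1 + h2) ⊔ (g2 + h1), h1 + h2, (hg1.add hh2).max (hg2.add hh1), hh1.add hh2, ?_⟩
    ext x
    simp only [ContinuousMap.sup_apply, ContinuousMap.sub_apply, ContinuousMap.add_apply]
    rcases le_total (g1 x - h1 x) (g2 x - h2 x) with h | h
    · rw [max_eq_right h, max_eq_right (by linarith)]; ring
    · rw [max_eq_left h, max_eq_left (by linarith)]; ring
  have hlin : ∀ (φ : V →L[ℝ] ℝ) (c : ℝ),
      (⟨fun x : X => φ x + c, by fun_prop⟩ : C(X, ℝ)) ∈ L := by
    intro φ c
    refine ⟨⟨fun x : X => φ x + c, by fun_prop⟩, ⟨fun x : X => (0 : V →L[ℝ] ℝ) x + 0, by fun_prop⟩,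
      isConvexFn_lin φ c, isConvexFn_lin 0 0, ?_⟩
    ext x; simp
  have hcl : closure L = ⊤ := by
    refine ContinuousMap.sublattice_closure_eq_top L ⟨_, hlin 0 0⟩ ?_ hsup ?_
    · intro f hf g hg
      have := hneg _ (hsup _ (hneg f hf) _ (hneg g hg))
      rwa [neg_sup, neg_neg, neg_neg] at this
    · intro v x y
      by_cases hxy : x = y
      · subst hxy
        exact ⟨_, hlin 0 (v x), by simp, by simp⟩
      · have hxy' : (x : V) ≠ y := fun h => hxy (Subtype.ext h)
        obtain ⟨φ, hφ⟩ := geometric_hahn_banach_point_point hxy'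
        have hne : φ y - φ x ≠ 0 := by linarith [hφ] |> fun (h : 0 < φ y - φ x) => h.ne'
        refine ⟨_, hlin (((v y - v x) / (φ y - φ x)) • φ)
          (v x - ((v y - v x) / (φ y - φ x)) * φ x), ?_, ?_⟩
        · simp
        · simp only [ContinuousMap.coe_mk, ContinuousLinearMap.coe_smul', Pi.smul_apply,
            smul_eq_mul]
          field_simp
          ring
  have hcont : ∀ (m : Measure X) [IsProbabilityMeasure m],
      Continuous (fun f : C(X, ℝ) => ∫ x, f x ∂m) := by
    intro m _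
    refine LipschitzWith.continuous (K := 1) (LipschitzWith.of_dist_le_mul fun f g => ?_)
    rw [Real.dist_eq, ← integral_sub (hint f m) (hint g m), NNReal.coe_one, one_mul]
    have := norm_integral_le_of_norm_le_const (μ := m) (f := fun x => f x - g x) (C := dist f g)
      (Eventually.of_forall fun x => by
        rw [← dist_eq_norm]; exact ContinuousMap.dist_apply_le_dist x)
    simpa using this
  have hall : ∀ f : C(X, ℝ), ∫ x, f x ∂μ = ∫ x, f x ∂ν := by
    have hc : IsClosed {f : C(X, ℝ) | ∫ x, f x ∂μ = ∫ x, f x ∂ν} :=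
      isClosed_eq (hcont μ) (hcont ν)
    have hL : L ⊆ {f : C(X, ℝ) | ∫ x, f x ∂μ = ∫ x, f x ∂ν} := by
      rintro f ⟨g, h, hg, hh, rfl⟩
      have e1 := le_antisymm (h1 g g.continuous hg) (h2 g g.continuous hg)
      have e2 := le_antisymm (h1 h h.continuous hh) (h2 h h.continuous hh)
      simp only [mem_setOf_eq, ContinuousMap.sub_apply]
      rw [integral_sub (hint g μ) (hint h μ), integral_sub (hint g ν) (hint h ν), e1, e2]
    intro f
    have := closure_minimal hL hc
    rw [hcl] at this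
    exact this (mem_univ f)
  exact Measure.ext_of_integral_eq_on_compactlySupported fun f => hall f.toContinuousMap

/-- supporting affine minorants -/
theorem exists_minorant {X : Set V} (hX : IsCompact X) (hc : Convex ℝ X) {f : X → ℝ}
    (hf : Continuous f) (hcv : IsConvexFn X f) (x : X) {a : ℝ} (ha : a < f x) :
    ∃ (l : V →L[ℝ] ℝ) (c : ℝ), (∀ y : X, l y + c ≤ f y) ∧ l x + c = a := by
  classical
  let φ : V → ℝ := fun v => if h : v ∈ X then f ⟨v, h⟩ else 0
  have hφ : ∀ y : X, φ y = f y := fun y => by simp [φ, y.2]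
  have h1 : ContinuousOn φ X := by
    rw [continuousOn_iff_continuous_restrict]
    convert hf using 1
    ext y; exact hφ y
  have h2 : ConvexOn ℝ X φ := by
    refine ⟨hc, fun u hu v hv s t hs ht hst => ?_⟩
    have hm : s • u + t • v ∈ X := hc hu hv hs ht hst
    have := hcv ⟨u, hu⟩ ⟨v, hv⟩ ⟨_, hm⟩ s hs (by linarith) (by rw [show 1 - s = t by linarith])
    rw [← hφ, ← hφ, ← hφ, show 1 - s = t by linarith] at this
    simpa using this
  obtain ⟨l, c, h3, h4⟩ := ConvexOn.exists_affine_le_of_lt (𝕜 := ℝ) x.2 (by rwa [hφ])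
    hX.isClosed h1.lowerSemicontinuousOn h2
  refine ⟨l, c, fun y => ?_, by simpa using h4⟩
  have := h3 y
  rw [← hφ]
  simpa using this

/-- A criterion for simpliciality. -/
theorem isChoquetSimplex_of {X : Set V} (hX : IsCompact X) (hc : Convex ℝ X)
    (Λ : X → C(X, ℝ) →ₗ[ℝ] ℝ) (hpos : ∀ x f, (∀ y, 0 ≤ f y) → 0 ≤ Λ x f)
    (hone : ∀ x, Λ x 1 = 1)
    (hlin : ∀ x (φ : V →L[ℝ] ℝ), Λ x ⟨fun y : X => φ y, by fun_prop⟩ = φ x)
    (hlim : ∀ f : C(X, ℝ), ∃ (φ : ℕ → V →L[ℝ] ℝ) (M : ℝ), (∀ n (x : X), |φ n x| ≤ M) ∧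
      ∀ x : X, Tendsto (fun n => φ n x) atTop (𝓝 (Λ x f))) :
    IsChoquetSimplex X := by
  let : MeasurableSpace X := borel X
  have : BorelSpace X := ⟨rfl⟩
  have : CompactSpace X := isCompact_iff_compactSpace.1 hX
  have hint : ∀ (f : C(X, ℝ)) (m : Measure X) [IsFiniteMeasure m], Integrable f m :=
    fun f m _ => (BoundedContinuousFunction.mkOfCompact f).integrable m
  have hmono : ∀ x (f g : C(X, ℝ)), (∀ y, f y ≤ g y) → Λ x f ≤ Λ x g := by
    intro x f g h
    have := hpos x (g - f) (fun y => by simpa using h y)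
    rw [map_sub] at this
    linarith
  -- the representing measures
  have hm : ∀ x : X, ∃ m : Measure X, IsRadonProb X m ∧ ∀ f : C(X, ℝ), ∫ y, f y ∂m = Λ x f := by
    intro x
    let L : C_c(X, ℝ) →ₚ[ℝ] ℝ :=
      { toFun g := Λ x g.toContinuousMap
        map_add' g g' := by rw [← map_add]; rfl
        map_smul' c g := by rw [← map_smul]; rfl
        monotone' g g' hgg' := hmono x _ _ hgg' }
    have key : ∀ f : C(X, ℝ), ∫ y, f y ∂(RealRMK.rieszMeasure L) = Λ x f := fun f =>
      RealRMK.integral_rieszMeasure L ⟨f, HasCompactSupport.of_compactSpace _⟩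
    refine ⟨RealRMK.rieszMeasure L, ⟨?_, inferInstance⟩, key⟩
    have h1 := key 1
    rw [hone] at h1
    simp only [ContinuousMap.one_apply, integral_const, smul_eq_mul, mul_one] at h1
    exact isProbabilityMeasure_iff_real.2 h1
  choose m hmR hmI using hm
  have hbary : ∀ x : X, IsBarycenter X (m x) x := fun x φ => by
    have := hmI x ⟨fun y : X => φ y, by fun_prop⟩
    rw [hlin] at this
    exact this
  -- Jensen
  have hJ : ∀ (f : C(X, ℝ)), IsConvexFn X f → ∀ x, f x ≤ Λ x f := by
    intro f hf x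
    refine le_of_forall_lt_imp_le_of_dense fun a ha => ?_
    obtain ⟨l, c, h1, h2⟩ := exists_minorant hX hc f.continuous hf x ha
    let lf : C(X, ℝ) := ⟨fun y : X => l y, by fun_prop⟩
    have := hmono x (lf + c • (1 : C(X, ℝ))) f
      (fun y => by simpa [lf] using h1 y)
    rw [map_add, map_smul, hlin, hone, smul_eq_mul, mul_one] at this
    linarith
  -- every representing measure is below `m x`
  have htop : ∀ (x : X) (μ : Measure X), IsRadonProb X μ → IsBarycenter X μ x →
      ChoquetLE X μ (m x) := by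
    intro x μ hμ hb f hf hcv
    have := hμ.1
    let F : C(X, ℝ) := ⟨f, hf⟩
    obtain ⟨φ, M, hM, hφ⟩ := hlim F
    have hmeas : ∀ n, AEStronglyMeasurable (fun y : X => φ n y) μ := fun n =>
      (show Continuous (fun y : X => φ n y) by fun_prop).aestronglyMeasurable
    have hdom := tendsto_integral_of_dominated_convergence (μ := μ) (F := fun n (y : X) => φ n y)
      (f := fun y => Λ y F) (fun _ => M) hmeas (integrable_const M)
      (fun n => Eventually.of_forall fun y => hM n y) (Eventually.of_forall hφ)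
    have e1 : ∫ y, Λ y F ∂μ = Λ x F := by
      refine tendsto_nhds_unique hdom ((hφ x).congr fun n => (hb (φ n)).symm)
    have hI : Integrable (fun y => Λ y F) μ := by
      refine Integrable.mono' (integrable_const M)
        (aestronglyMeasurable_of_tendsto_ae atTop hmeas (Eventually.of_forall hφ)) ?_
      refine Eventually.of_forall fun y => ?_
      exact le_of_tendsto' (hφ y).abs fun n => hM n y
    calc ∫ y, f y ∂μ ≤ ∫ y, Λ y F ∂μ := integral_mono (hint F μ) hI (hJ F hcv)
      _ = Λ x F := e1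
      _ = ∫ y, f y ∂(m x) := (hmI x F).symm
  intro x hx
  refine ⟨m ⟨x, hx⟩, ⟨⟨hmR _, fun ν hν hle => ?_⟩, hbary ⟨x, hx⟩⟩, ?_⟩
  · refine choquet_antisymm hX hν (hmR _) (htop ⟨x, hx⟩ ν hν fun φ => ?_) hle
    have a1 := hle _ (by fun_prop) (isConvexFn_lin (X := X) φ 0)
    have a2 := hle _ (by fun_prop) (isConvexFn_lin (X := X) (-φ) 0)
    have a3 := hbary ⟨x, hx⟩ φ
    simp only [add_zero, ContinuousLinearMap.neg_apply, integral_neg] at a1 a2
    linarith
  · rintro μ ⟨⟨hμ, hmax⟩, hb⟩
    exact (hmax _ (hmR _) (htop ⟨x, hx⟩ μ hμ hb)).symm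

end Pool.Agent.H524Z.Chq
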