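import Mathlib

open MeasureTheory Filter Topology Set

namespace Pool.Agent.H524Z.Chq

section Defs

variable {V : Type} [AddCommGroup V] [Module ℝ V] [TopologicalSpace V]

/-- A real function on `X` is affine. -/
def IsAffineFn (X : Set V) (f : X → ℝ) : Prop :=
  ∀ (x y z : X) (l : ℝ), 0 ≤ l → l ≤ 1 → (z : V) = l • (x : V) + (1 - l) • (y : V) →
    f z = l * f x + (1 - l) * f y

/-- A real function on `X` is convex. -/
def IsConvexFn (X : Set V) (f : X → ℝ) : Prop :=
  ∀ (x y z : X) (l : ℝ), 0 ≤ l → l ≤ 1 → (z : V) = l • (x : V) + (1 - l) • (y : V) →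
    f z ≤ l * f x + (1 - l) * f y

/-- Radon probability measures on `X`: Borel probability measures that are inner regular with
respect to compact sets. -/
def IsRadonProb (X : Set V) (μ : @Measure X (borel X)) : Prop :=
  @IsProbabilityMeasure X (borel X) μ ∧ @Measure.InnerRegular X (borel X) _ μ

/-- `x` is the barycenter of `μ`. -/
def IsBarycenter (X : Set V) (μ : @Measure X (borel X)) (x : V) : Prop :=
  ∀ φ : V →L[ℝ] ℝ, ∫ y : X, φ (y : V) ∂μ = φ x

/-- The Choquet ordering. -/
def ChoquetLE (X : Set V) (μ ν : @Measure X (borel X)) : Prop :=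
  ∀ f : X → ℝ, Continuous f → IsConvexFn X f → ∫ y, f y ∂μ ≤ ∫ y, f y ∂ν

/-- Maximal Radon probability measures in the Choquet ordering. -/
def IsMaximalMeasure (X : Set V) (μ : @Measure X (borel X)) : Prop :=
  IsRadonProb X μ ∧ ∀ ν : @Measure X (borel X), IsRadonProb X ν → ChoquetLE X μ ν → ν = μ

/-- Every point of `X` is the barycenter of exactly one maximal Radon probability measure. -/
def IsChoquetSimplex (X : Set V) : Prop :=
  ∀ x ∈ X, ∃! μ : @Measure X (borel X), IsMaximalMeasure X μ ∧ IsBarycenter X μ x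

/-- Baire functions: members of the smallest family containing the continuous functions and closed
under pointwise limits of sequences. -/
def IsBaireFn {T : Type} [TopologicalSpace T] (f : T → ℝ) : Prop :=
  ∀ S : Set (T → ℝ), (∀ g : T → ℝ, Continuous g → g ∈ S) →
    (∀ (F : ℕ → T → ℝ) (g : T → ℝ), (∀ n, F n ∈ S) →
      (∀ x, Tendsto (fun n => F n x) atTop (𝓝 (g x))) → g ∈ S) → f ∈ S

/-- The affine Baire extension property. -/
def AffineBaireExt (X : Set V) : Prop :=
  ∀ g : extremePoints ℝ X → ℝ, Continuous g → (∃ M : ℝ, ∀ e, |g e| ≤ M) →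
    ∃ f : X → ℝ, IsAffineFn X f ∧ IsBaireFn f ∧
      ∀ e : extremePoints ℝ X, f ⟨e, extremePoints_subset e.2⟩ = g e

/-- The stronger form: the extension is the pointwise limit of a uniformly bounded sequence of
continuous affine functions. -/
def AffineBaireOneExt (X : Set V) : Prop :=
  ∀ g : extremePoints ℝ X → ℝ, Continuous g → (∃ M : ℝ, ∀ e, |g e| ≤ M) →
    ∃ (f : X → ℝ) (F : ℕ → X → ℝ) (M : ℝ),
      (∀ n, Continuous (F n) ∧ IsAffineFn X (F n) ∧ ∀ x, |F n x| ≤ M) ∧
      (∀ x, Tendsto (fun n => F n x) atTop (𝓝 (f x))) ∧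
      ∀ e : extremePoints ℝ X, f ⟨e, extremePoints_subset e.2⟩ = g e

end Defs

end Pool.Agent.H524Z.Chq
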