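import Pool.Agent.H524Z.Chq.Space
import Pool.Agent.H524Z.Chq.Bary

open Filter Topology Set Sum MeasureTheory

namespace Pool.Agent.H524Z.Chq

variable (σ : (ℕ → Bool) → ℕ → SignType)

/-- index set -/
abbrev Ix : Type := {a : Pt → ℝ // Adm σ a}

/-- evaluation -/
def emb (k : Pt) : Ix σ → ℝ := fun a => a.1 k

theorem isCompact_emb : IsCompact (range (emb σ)) := by
  rw [isCompact_iff_ultrafilter_le_nhds]
  intro F hF
  have hmem : range (emb σ) ∈ (F : Filter (Ix σ → ℝ)) := le_principal_iff.1 hF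
  have hne : (comap (emb σ) (F : Filter (Ix σ → ℝ))).NeBot := F.neBot.comap_of_range_mem hmem
  let 𝒰 : Ultrafilter Pt := Ultrafilter.of (comap (emb σ) (F : Filter (Ix σ → ℝ)))
  have h1 : (𝒰.map (emb σ) : Filter (Ix σ → ℝ)) ≤ F :=
    (map_mono (Ultrafilter.of_le _)).trans map_comap_le
  have h2 : (𝒰.map (emb σ) : Filter (Ix σ → ℝ)) = F := F.unique h1
  obtain ⟨k, hk⟩ := ultra (σ := σ) 𝒰
  refine ⟨emb σ k, ⟨k, rfl⟩, ?_⟩
  rw [← h2]
  refine tendsto_pi_nhds.2 fun a => tendsto_const_nhds.congr' ?_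
  filter_upwards [hk a.1 a.2] with k' hk'
  exact hk'.symm

/-- coordinates -/
def crd (a : Ix σ) : C(range (emb σ), ℝ) :=
  ⟨fun κ => κ.1 a, (continuous_apply a).comp continuous_subtype_val⟩

variable {σ}

/-- peak function at a node -/
noncomputable def pk0 (hσ : ∀ t, Conv t {w | σ t w ≠ 0}) (w : ℕ) : Ix σ :=
  ⟨glue σ (w + 1) (fun v => if v = w then 1 else 0) id (fun _ _ => 0),
    ⟨fun _ => by simp [glue], fun t ε => ⟨w + 1, fun k hk _ => by
      rw [glue_of_cone hk.2]; rfl⟩⟩⟩

open Classical in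
theorem pk0_apply (hσ : ∀ t, Conv t {w | σ t w ≠ 0}) (w : ℕ) (k : Pt) :
    (pk0 hσ w).1 k = if k = inl w then 1 else 0 := by
  rcases k with v | x
  · by_cases h : v = w
    · simp [pk0, glue, h]
    · simp [pk0, glue, h]
  · simp [pk0, glue]

open Classical in
/-- peak function at a point above a branch -/
noncomputable def pk1 (hσ : ∀ t, Conv t {w | σ t w ≠ 0}) (t : ℕ → Bool) (ε : SignType) (m : ℕ) :
    Ix σ :=
  ⟨glue σ m (fun _ => 0) (fun _ => t)
      (fun s η => if agree m s t then (ε : ℝ) * (η : ℝ) else 0),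
    adm_glue hσ m _ _ _ (fun _ _ _ => rfl)
      (fun s s' h => by
        have : agree m s t ↔ agree m s' t := ⟨fun h' => h.symm.trans h', fun h' => h.trans h'⟩
        simp only [this])
      (fun s => by split_ifs <;> simp)⟩

open Classical in
theorem pk1_apply (hσ : ∀ t, Conv t {w | σ t w ≠ 0}) (t : ℕ → Bool) (ε : SignType) (m : ℕ)
    (k : Pt) :
    (pk1 hσ t ε m).1 k = if k ∈ Cone t m then (ε : ℝ) * (lab σ t k : ℝ) else 0 := by
  by_cases hk : ∀ w, k = inl w → m ≤ w
  · simp only [pk1]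
    rw [glue_of_cone hk]
    have : k ∈ Cone t m ↔ agree m (pr k) t := ⟨fun h => h.1, fun h => ⟨h, hk⟩⟩
    simp only [this]
  · rw [if_neg fun h => hk h.2]
    push Not at hk
    obtain ⟨w, rfl, hw⟩ := hk
    simp [pk1, glue, hw]

theorem sign_sq {ε : SignType} (h : ε ≠ 0) : (ε : ℝ) * ε = 1 := by
  rcases ε with _ | _ | _ <;> simp_all

theorem sign_ne {ε η : SignType} (h : η ≠ ε) : (ε : ℝ) * η ≤ 0 := by
  rcases ε with _ | _ | _ <;> rcases η with _ | _ | _ <;> simp_all

theorem main : ∃ (I : Type) (X : Set (I → ℝ)), IsCompact X ∧ Convex ℝ X ∧ IsChoquetSimplex X ∧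
    AffineBaireOneExt X ∧ ¬ IsLindelof (extremePoints ℝ X) := by
  classical
  obtain ⟨σ, hσ, hinf, hkill⟩ := exists_labels
  let : MeasurableSpace (range (emb σ)) := borel _
  have : BorelSpace (range (emb σ)) := ⟨rfl⟩
  have : CompactSpace (range (emb σ)) := isCompact_iff_compactSpace.1 (isCompact_emb σ)
  let c := crd σ
  let κ : Pt → range (emb σ) := fun k => ⟨emb σ k, k, rfl⟩
  have hbd : ∀ (a : Ix σ) k, |a.1 k| ≤ ‖c a‖ := fun a k => (c a).norm_coe_le_norm (κ k)
  have hpeak : ∀ k₀ : Pt, (∀ a : Ix σ, ∃ b : Ix σ, b.1 k₀ = 1 ∧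
      ∀ k, (b.1 k = 1 ∧ a.1 k = a.1 k₀) ∨ b.1 k ≤ 0) → emb σ k₀ ∈ extremePoints ℝ (hull c) := by
    intro k₀ h
    refine ev_extreme c (κ k₀) fun a ε hε => ?_
    obtain ⟨b, hb, hb'⟩ := h a
    refine ⟨b, 2 * ‖c a‖, hb, ?_, ?_⟩
    · rintro ⟨_, k, rfl⟩
      change b.1 k ≤ 1
      rcases hb' k with h1 | h1 <;> linarith [h1]
    · rintro ⟨_, k, rfl⟩
      change |a.1 k - a.1 k₀| ≤ ε + 2 * ‖c a‖ * (1 - b.1 k)
      rcases hb' k with h1 | h1
      · rw [h1.1, h1.2]; simp [hε.le]
      · have a1 := hbd a k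
        have a2 := hbd a k₀
        have a3 : |a.1 k - a.1 k₀| ≤ |a.1 k| + |a.1 k₀| := abs_sub _ _
        nlinarith [norm_nonneg (c a)]
  have hE0 : ∀ w, emb σ (inl w) ∈ extremePoints ℝ (hull c) := fun w =>
    hpeak _ fun a => ⟨pk0 hσ w, by simp [pk0_apply], fun k => by
      rw [pk0_apply]
      split_ifs with h
      · exact Or.inl ⟨rfl, by rw [h]⟩
      · exact Or.inr le_rfl⟩
  have hE1 : ∀ t ε, ε ≠ 0 → emb σ (inr (t, ε)) ∈ extremePoints ℝ (hull c) := fun t ε hε =>
    hpeak _ fun a => by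
      obtain ⟨m, hm⟩ := a.2.2 t ε
      have hsq : (ε : ℝ) * ε = 1 := sign_sq hε
      refine ⟨pk1 hσ t ε m, ?_, fun k => ?_⟩
      · rw [pk1_apply, if_pos ⟨agree.refl _ _, by simp⟩, lab_self, hsq]
      · rw [pk1_apply]
        split_ifs with h
        · by_cases hl : lab σ t k = ε
          · exact Or.inl ⟨by rw [hl, hsq], hm k h hl⟩
          · exact Or.inr (sign_ne hl)
        · exact Or.inr le_rfl
  let P : SignType → Pt → Pt := fun δ k => match k with
    | inl w => inl w
    | inr x => inr (x.1, if x.2 = 0 then δ else x.2)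
  have hP : ∀ δ, δ ≠ 0 → ∀ k, emb σ (P δ k) ∈ extremePoints ℝ (hull c) := by
    rintro δ hδ (w | ⟨t, ε⟩)
    · exact hE0 w
    · refine hE1 _ _ ?_
      split_ifs with h
      · exact hδ
      · exact h
  have hmid : ∀ (a : Ix σ) k, a.1 k = (a.1 (P 1 k) + a.1 (P (-1) k)) / 2 := by
    rintro a (w | ⟨t, ε⟩)
    · simp [P]
    · by_cases h : ε = 0
      · simp only [P, h, if_true]
        exact a.2.1 t
      · simp [P, h]
  have hsec : ∀ x : range (emb σ), ∃ k, emb σ k = x := fun x => x.2
  choose sec hsec using hsec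
  let p : Pt → extremePoints ℝ (hull c) := fun k => ⟨_, hP 1 (by decide) k⟩
  let q : Pt → extremePoints ℝ (hull c) := fun k => ⟨_, hP (-1) (by decide) k⟩
  have hmain := simplex_and_ext c (fun x => p (sec x)) (fun x => q (sec x))
    (fun x a => by
      change x.1 a = _
      rw [← hsec x]
      exact hmid a (sec x))
    (fun g hg ⟨M, hM⟩ => by
      let G : Pt → ℝ := fun k => (g (p k) + g (q k)) / 2
      have hG1 : ∀ t ε (hε : ε ≠ 0), G (inr (t, ε)) = g ⟨_, hE1 t ε hε⟩ := by
        intro t ε hε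
        simp [G, p, q, P, hε]
      have hG0 : ∀ w, G (inl w) = g ⟨_, hE0 w⟩ := by
        intro w
        simp [G, p, q, P]
      obtain ⟨s, hs1, hs2, hs3⟩ := approx hσ hinf hkill G M
        (fun k => by
          have a1 := hM (p k)
          have a2 := hM (q k)
          simp only [G]
          rw [abs_le] at a1 a2 ⊢
          constructor <;> linarith [a1.1, a1.2, a2.1, a2.2])
        (fun t => by
          rw [hG1 t 1 (by decide), hG1 t (-1) (by decide)]
          simp [G, p, q, P])
        (fun t ε hε δ hδ => by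
          have ht : Tendsto (fun w => (⟨_, hE0 w⟩ : extremePoints ℝ (hull c)))
              (atTop ⊓ 𝓟 {w | σ t w = ε}) (𝓝 ⟨_, hE1 t ε hε⟩) := by
            rw [tendsto_subtype_rng]
            refine tendsto_pi_nhds.2 fun a => tendsto_const_nhds.congr' ?_
            obtain ⟨m, hm⟩ := a.2.2 t ε
            obtain ⟨N, hN⟩ := hσ t m
            rw [EventuallyEq, eventually_inf_principal]
            filter_upwards [eventually_ge_atTop (max m N)] with w hw hw'
            refine (hm (inl w) ⟨hN w (le_of_max_le_right hw) ?_, ?_⟩ hw').symm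
            · simpa [show σ t w = ε from hw'] using hε
            · rintro v ⟨⟩
              exact le_of_max_le_left hw
          have h2 := Metric.tendsto_nhds.1 ((hg.tendsto _).comp ht) δ hδ
          rw [eventually_inf_principal, eventually_atTop] at h2
          obtain ⟨N, hN⟩ := h2
          refine ⟨N, fun w hw hw' => ?_⟩
          have := hN w hw hw'
          change |G (inl w) - _| ≤ δ
          rw [hG0, hG1 t ε hε]
          exact le_of_lt this)
      refine ⟨fun n => ⟨s n, hs1 n⟩, M, fun n x => ?_, fun x => ?_⟩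
      · change |x.1 _| ≤ M
        rw [← hsec x]
        exact hs2 n _
      · refine (hs3 (sec x)).congr fun n => ?_
        change _ = x.1 _
        rw [← hsec x]
        rfl)
  refine ⟨Ix σ, hull c, isCompact_hull c, convex_hull c, hmain.1, hmain.2, fun hL => ?_⟩
  let β : Pt → Ix σ := fun k => match k with
    | inl w => pk0 hσ w
    | inr x => pk1 hσ x.1 x.2 0
  have hcone : ∀ t k, k ∈ Cone t 0 := fun t k => ⟨fun j hj => absurd hj (by omega), by simp⟩
  obtain ⟨r, hr, hcov⟩ := hL.elim_countable_subcover (fun k : Pt => {y : Ix σ → ℝ | 0 < y (β k)})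
    (fun k => isOpen_lt continuous_const (continuous_apply _)) (by
      intro y hy
      obtain ⟨x, hx⟩ := extreme_subset c hy
      have hy' : y = emb σ (sec x) := by rw [hsec, ← hx]; rfl
      generalize sec x = k at hy'
      subst hy'
      rw [mem_iUnion]
      refine ⟨k, ?_⟩
      rcases k with w | ⟨t, ε⟩
      · simp [β, emb, pk0_apply]
      · by_cases hε : ε = 0
        · exfalso
          subst hε
          have hseg : emb σ (inr (t, 0)) ∈
              openSegment ℝ (emb σ (inr (t, 1))) (emb σ (inr (t, -1))) := by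
            refine ⟨1 / 2, 1 / 2, by norm_num, by norm_num, by norm_num, ?_⟩
            ext a
            simp only [emb, Pi.add_apply, Pi.smul_apply, smul_eq_mul, a.2.1 t]
            ring
          have := hy.2 (hE1 t 1 (by decide)).1 (hE1 t (-1) (by decide)).1 hseg
          have h2 := congrFun this (pk1 hσ t 1 0)
          simp [emb, pk1_apply, hcone, lab_self] at h2
        · simp only [β, emb, mem_ofPred_eq, pk1_apply, hcone, if_true, lab_self]
          rw [sign_sq hε]
          exact one_pos)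
  have hsub : (univ : Set (ℕ → Bool)) ⊆ pr '' r := by
    intro t _
    have := hcov (hE1 t 1 (by decide))
    simp only [mem_iUnion, mem_ofPred_eq] at this
    obtain ⟨k, hk, hk'⟩ := this
    refine ⟨k, hk, ?_⟩
    rcases k with w | ⟨s, ε⟩
    · simp [β, emb, pk0_apply] at hk'
    · by_contra hne
      have hne' : t ≠ s := fun h => hne h.symm
      simp [β, emb, pk1_apply, lab_ne hne'] at hk'
  have h1 : (univ : Set (ℕ → Bool)).Countable := (hr.image pr).mono hsub
  have h2 : Countable (ℕ → Bool) := countable_univ_iff.1 h1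
  have h3 := Cardinal.mk_le_aleph0_iff.2 h2
  simp only [Cardinal.mk_pi, Cardinal.mk_bool, Cardinal.prod_const, Cardinal.mk_nat,
    Cardinal.lift_aleph0, Cardinal.lift_ofNat, Cardinal.two_power_aleph0] at h3
  exact absurd h3 (not_le.2 Cardinal.aleph0_lt_continuum)

end Pool.Agent.H524Z.Chq
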