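import Pool.Agent.H524Z.Chq.Tree

open Filter Topology Set Sum

namespace Pool.Agent.H524Z.Chq

/-- points: nodes, and three points above each branch -/
abbrev Pt : Type := ℕ ⊕ ((ℕ → Bool) × SignType)

/-- projection to the Cantor set -/
def pr : Pt → ℕ → Bool
  | inl w => dg w
  | inr x => x.1

/-- cones -/
def Cone (t : ℕ → Bool) (m : ℕ) : Set Pt := {k | agree m (pr k) t ∧ ∀ w, k = inl w → m ≤ w}

theorem Cone.mono {t : ℕ → Bool} {m n : ℕ} {k : Pt} (h : k ∈ Cone t n) (hmn : m ≤ n) :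
    k ∈ Cone t m := ⟨h.1.mono hmn, fun w hw => hmn.trans (h.2 w hw)⟩

variable (σ : (ℕ → Bool) → ℕ → SignType)

open Classical in
/-- labels -/
noncomputable def lab (t : ℕ → Bool) : Pt → SignType
  | inl w => σ t w
  | inr x => if x.1 = t then x.2 else 0

/-- admissible functions -/
def Adm (a : Pt → ℝ) : Prop :=
  (∀ t, a (inr (t, 0)) = (a (inr (t, 1)) + a (inr (t, -1))) / 2) ∧
  ∀ t ε, ∃ m, ∀ k ∈ Cone t m, lab σ t k = ε → a k = a (inr (t, ε))

/-- glued functions -/
noncomputable def glue (n : ℕ) (h : ℕ → ℝ) (τ : (ℕ → Bool) → ℕ → Bool)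
    (Γ : (ℕ → Bool) → SignType → ℝ) : Pt → ℝ
  | inl w => if w < n then h w else Γ (dg w) (lab σ (τ (dg w)) (inl w))
  | inr x => Γ x.1 (lab σ (τ x.1) (inr x))

variable {σ}

theorem lab_self (t : ℕ → Bool) (ε : SignType) : lab σ t (inr (t, ε)) = ε := by simp [lab]

theorem lab_ne {s t : ℕ → Bool} (h : s ≠ t) (ε : SignType) : lab σ t (inr (s, ε)) = 0 := by
  simp [lab, h]

theorem lab_loc (hσ : ∀ t, Conv t {w | σ t w ≠ 0}) (τ t : ℕ → Bool) (ε : SignType) :
    ∃ m, ∀ k ∈ Cone t m, lab σ t k = ε → lab σ τ k = lab σ τ (inr (t, ε)) := by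
  by_cases h : t = τ
  · subst h
    exact ⟨0, fun k _ hk => by rw [hk, lab_self]⟩
  · obtain ⟨m, hm⟩ := exists_not_agree h
    obtain ⟨N, hN⟩ := hσ τ m
    refine ⟨max m N, fun k hk _ => ?_⟩
    rw [lab_ne h]
    rcases k with w | ⟨s, η⟩
    · by_contra hne
      have h1 := hN w (le_of_max_le_right (hk.2 w rfl)) hne
      exact hm ((hk.1.mono (le_max_left _ _)).symm.trans h1)
    · refine lab_ne ?_ _
      rintro rfl
      exact hm (hk.1.mono (le_max_left _ _)).symm

theorem glue_of_cone {n : ℕ} {h : ℕ → ℝ} {τ : (ℕ → Bool) → ℕ → Bool}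
    {Γ : (ℕ → Bool) → SignType → ℝ} {k : Pt} (hk : ∀ w, k = inl w → n ≤ w) :
    glue σ n h τ Γ k = Γ (pr k) (lab σ (τ (pr k)) k) := by
  rcases k with w | x
  · simp [glue, pr, not_lt.2 (hk w rfl)]
  · rfl

theorem adm_glue (hσ : ∀ t, Conv t {w | σ t w ≠ 0}) (n : ℕ) (h : ℕ → ℝ)
    (τ : (ℕ → Bool) → ℕ → Bool) (Γ : (ℕ → Bool) → SignType → ℝ)
    (hτ : ∀ s t, agree n s t → τ s = τ t) (hΓ : ∀ s t, agree n s t → Γ s = Γ t)
    (hav : ∀ s, Γ s 0 = (Γ s 1 + Γ s (-1)) / 2) : Adm σ (glue σ n h τ Γ) := by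
  constructor
  · intro t
    simp only [glue]
    by_cases ht : t = τ t
    · rw [← ht, lab_self, lab_self, lab_self, hav]
    · rw [lab_ne ht, lab_ne ht, lab_ne ht]; ring
  · intro t ε
    obtain ⟨m, hm⟩ := lab_loc hσ (τ t) t ε
    refine ⟨max m n, fun k hk hl => ?_⟩
    have hk' := Cone.mono hk (le_max_right _ _)
    rw [glue_of_cone hk'.2, hτ _ _ hk'.1, hΓ _ _ hk'.1, hm k (Cone.mono hk (le_max_left _ _)) hl]
    rfl

theorem ultra (𝒰 : Ultrafilter Pt) :
    ∃ k, ∀ a, Adm σ a → ∀ᶠ k' in (𝒰 : Filter Pt), a k' = a k := by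
  by_cases h : ∃ w, {inl w} ∈ 𝒰
  · obtain ⟨w, hw⟩ := h
    refine ⟨inl w, fun a _ => ?_⟩
    filter_upwards [hw] with k hk
    rw [mem_singleton_iff.1 hk]
  · push Not at h
    obtain ⟨t, -, ht⟩ := isCompact_univ.ultrafilter_le_nhds (𝒰.map pr) (by simp)
    have hc : ∀ m, Cone t m ∈ 𝒰 := by
      intro m
      have h1 : ∀ᶠ k in (𝒰 : Filter Pt), agree m (pr k) t := ht (agree_mem_nhds m t)
      have h2 : ∀ᶠ k in (𝒰 : Filter Pt), ∀ w ∈ Finset.range m, k ≠ inl w := by
        rw [eventually_all_finset]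
        intro w _
        exact Ultrafilter.compl_mem_iff_notMem.2 (h w)
      filter_upwards [h1, h2] with k h1 h2
      refine ⟨h1, fun w hw => ?_⟩
      by_contra hlt
      exact h2 w (Finset.mem_range.2 (not_le.1 hlt)) hw
    obtain ⟨ε, hε⟩ : ∃ ε, ∀ᶠ k in (𝒰 : Filter Pt), lab σ t k = ε := by
      obtain ⟨ε, -, hε⟩ := (Ultrafilter.eq_pure_of_finite_mem (f := 𝒰.map (lab σ t))
        (finite_univ) univ_mem)
      refine ⟨ε, ?_⟩
      have : {ε} ∈ 𝒰.map (lab σ t) := by rw [hε]; simp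
      exact this
    refine ⟨inr (t, ε), fun a ha => ?_⟩
    obtain ⟨m, hm⟩ := ha.2 t ε
    filter_upwards [hc m, hε] with k h1 h2
    exact hm k h1 h2

/-- approximation by admissible functions -/
theorem approx (hσ : ∀ t, Conv t {w | σ t w ≠ 0})
    (hinf : ∀ t ε, ε ≠ 0 → ∀ N, ∃ w, N ≤ w ∧ σ t w = ε)
    (hkill : ∀ g : ℕ → ℝ, (∀ t, ∃ c, LimOn g {w | σ t w = 1} c) → {t | ¬ Good g t}.Countable)
    (G : Pt → ℝ) (M : ℝ) (hM : ∀ k, |G k| ≤ M)
    (hav : ∀ t, G (inr (t, 0)) = (G (inr (t, 1)) + G (inr (t, -1))) / 2)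
    (hlim : ∀ t ε, ε ≠ 0 → LimOn (fun w => G (inl w)) {w | σ t w = ε} (G (inr (t, ε)))) :
    ∃ s : ℕ → Pt → ℝ, (∀ n, Adm σ (s n)) ∧ (∀ n k, |s n k| ≤ M) ∧
      ∀ k, Tendsto (fun n => s n k) atTop (𝓝 (G k)) := by
  classical
  have hc := hkill (fun w => G (inl w)) fun t => ⟨_, hlim t 1 (by decide)⟩
  obtain ⟨e, he⟩ := (hc.insert (fun _ => false)).exists_eq_range (insert_nonempty _ _)
  let tr : ℕ → (ℕ → Bool) → ℕ → Bool := fun n s j => if j < n then s j else false
  let τ : ℕ → (ℕ → Bool) → ℕ → Bool := fun n s =>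
    if h : ∃ j, agree n (e j) s then e (Nat.find h) else tr n s
  have hτ : ∀ n s t, agree n s t → τ n s = τ n t := by
    intro n s t hst
    have hiff : ∀ j, agree n (e j) s ↔ agree n (e j) t :=
      fun j => ⟨fun h => h.trans hst, fun h => h.trans hst.symm⟩
    simp only [τ, hiff]
    split_ifs with h
    · rfl
    · ext j
      simp only [tr]
      split_ifs with hj
      · exact hst j hj
      · rfl
  have hτa : ∀ n s, agree n (τ n s) s := by
    intro n s
    simp only [τ]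
    split_ifs with h
    · exact Nat.find_spec h
    · intro j hj; simp [tr, hj]
  refine ⟨fun n => glue σ n (fun w => G (inl w)) (τ n) (fun s η => G (inr (τ n s, η))),
    fun n => adm_glue hσ n _ _ _ (hτ n) (fun s t hst => by rw [hτ n s t hst])
      (fun s => hav _), fun n k => ?_, fun k => ?_⟩
  · rcases k with w | x
    · simp only [glue]
      split_ifs <;> exact hM _
    · exact hM _
  rcases k with w | ⟨t, ε⟩
  · refine tendsto_const_nhds.congr' ?_
    filter_upwards [eventually_gt_atTop w] with n hn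
    simp [glue, hn]
  by_cases ht : t ∈ range e
  · have hex : ∃ j, e j = t := ht
    have h1 : ∀ᶠ n in atTop, ∀ i ∈ Finset.range (Nat.find hex), ¬ agree n (e i) t := by
      rw [eventually_all_finset]
      intro i hi
      obtain ⟨m, hm⟩ := exists_not_agree (Nat.find_min hex (Finset.mem_range.1 hi))
      filter_upwards [eventually_ge_atTop m] with n hn h
      exact hm (h.mono hn)
    refine tendsto_const_nhds.congr' ?_
    filter_upwards [h1] with n hn
    have h2 : ∃ j, agree n (e j) t :=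
      ⟨Nat.find hex, by rw [Nat.find_spec hex]; exact agree.refl _ _⟩
    have h3 : Nat.find h2 = Nat.find hex := by
      rw [Nat.find_eq_iff]
      exact ⟨by rw [Nat.find_spec hex]; exact agree.refl _ _,
        fun i hi => hn i (Finset.mem_range.2 hi)⟩
    have h4 : τ n t = t := by
      simp only [τ, dif_pos h2, h3]
      exact Nat.find_spec hex
    simp only [glue, h4, lab_self]
  · have hg : Good (fun w => G (inl w)) t := by
      by_contra hg
      exact ht (he ▸ mem_insert_of_mem _ hg)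
    rw [Metric.tendsto_atTop]
    intro δ hδ
    obtain ⟨m, hm⟩ := hg (δ / 5) (by linarith)
    obtain ⟨w₀, hw₀, hw₀'⟩ := exists_node t m m
    have key : ∀ s, agree m s t → ∀ η, |G (inr (s, η)) - G (inl w₀)| ≤ 2 * (δ / 5) := by
      intro s hs
      have k1 : ∀ η, η ≠ 0 → |G (inr (s, η)) - G (inl w₀)| ≤ 2 * (δ / 5) := by
        intro η hη
        obtain ⟨N, hN⟩ := hlim s η hη (δ / 5) (by linarith)
        obtain ⟨N', hN'⟩ := hσ s m
        obtain ⟨w, hw, hw'⟩ := hinf s η hη (max m (max N N'))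
        have a1 := hN w (by omega) hw'
        have a2 := hm w w₀ (by omega) hw₀
          ((hN' w (by omega) (by simpa [hw'] using hη)).trans hs) hw₀'
        rw [abs_le] at a1 a2 ⊢
        constructor <;> linarith [a1.1, a1.2, a2.1, a2.2]
      intro η
      by_cases hη : η = 0
      · have a1 := k1 1 (by decide)
        have a2 := k1 (-1) (by decide)
        rw [hη, hav]
        rw [abs_le] at a1 a2 ⊢
        constructor <;> linarith [a1.1, a1.2, a2.1, a2.2]
      · exact k1 η hη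
    refine ⟨m, fun n hn => ?_⟩
    have a1 := key (τ n t) ((hτa n t).mono hn) (lab σ (τ n t) (inr (t, ε)))
    have a2 := key t (agree.refl _ _) ε
    rw [Real.dist_eq, abs_lt]
    simp only [glue]
    rw [abs_le] at a1 a2
    constructor <;> linarith [a1.1, a1.2, a2.1, a2.2]

end Pool.Agent.H524Z.Chq
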