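import Mathlib

open Filter Topology Set Cardinal

namespace Pool.Agent.H524Z.Chq

/-- injective selection from large sets -/
theorem exists_inj_sel {ι α : Type} [Nonempty α] (S : ι → Set α) (h : ∀ i, #ι ≤ #(S i)) :
    ∃ f : ι → α, Function.Injective f ∧ ∀ i, f i ∈ S i := by
  classical
  obtain ⟨r, wo, hr⟩ := Cardinal.exists_ord_eq ι
  let F : (i : ι) → ((j : ι) → r j i → α) → α := fun i rec =>
    Classical.epsilon fun a => a ∈ S i ∧ ∀ j (hj : r j i), rec j hj ≠ a
  let f : ι → α := wo.wf.fix F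
  have hf : ∀ i, f i ∈ S i ∧ ∀ j, r j i → f j ≠ f i := by
    intro i
    have e : f i = Classical.epsilon fun a => a ∈ S i ∧ ∀ j (_ : r j i), f j ≠ a :=
      wo.wf.fix_eq F i
    have ex : ∃ a, a ∈ S i ∧ ∀ j (_ : r j i), f j ≠ a := by
      by_contra hne
      push Not at hne
      have hsub : S i ⊆ range fun j : {j // r j i} => f j := by
        intro a ha
        obtain ⟨j, hj, hja⟩ := hne a ha
        exact ⟨⟨j, hj⟩, hja⟩
      have h1 := (Cardinal.mk_le_mk_of_subset hsub).trans Cardinal.mk_range_le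
      have h2 := Cardinal.card_typein_lt i hr
      rw [Ordinal.card_typein] at h2
      exact absurd ((h i).trans h1) (not_le.2 h2)
    have := Classical.epsilon_spec ex
    rw [← e] at this
    exact this
  refine ⟨f, fun i j hij => ?_, fun i => (hf i).1⟩
  rcases trichotomous_of r i j with h1 | h1 | h1
  · exact absurd hij ((hf j).2 i h1)
  · exact h1
  · exact absurd hij.symm ((hf i).2 j h1)

/-- agreement below `m` -/
def agree (m : ℕ) (s t : ℕ → Bool) : Prop := ∀ j < m, s j = t j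

theorem agree.refl (m : ℕ) (s : ℕ → Bool) : agree m s s := fun _ _ => rfl

theorem agree.symm {m : ℕ} {s t : ℕ → Bool} (h : agree m s t) : agree m t s :=
  fun j hj => (h j hj).symm

theorem agree.trans {m : ℕ} {s t u : ℕ → Bool} (h : agree m s t) (h' : agree m t u) :
    agree m s u := fun j hj => (h j hj).trans (h' j hj)

theorem agree.mono {m n : ℕ} {s t : ℕ → Bool} (h : agree n s t) (hmn : m ≤ n) :
    agree m s t := fun j hj => h j (hj.trans_le hmn)

theorem exists_not_agree {s t : ℕ → Bool} (h : s ≠ t) : ∃ m, ¬ agree m s t := by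
  obtain ⟨j, hj⟩ := Function.ne_iff.1 h
  exact ⟨j + 1, fun h' => hj (h' j (Nat.lt_succ_self j))⟩

theorem agree_mem_nhds (m : ℕ) (t : ℕ → Bool) : {s | agree m s t} ∈ 𝓝 t := by
  have : {s | agree m s t} = ⋂ j ∈ Finset.range m, (fun s : ℕ → Bool => s j) ⁻¹' {t j} := by
    ext s; simp [agree]
  rw [this, biInter_finset_mem]
  intro j _
  exact (continuous_apply j).continuousAt.preimage_mem_nhds (by simp)

/-- binary digits -/
def dg (w : ℕ) : ℕ → Bool := fun j => w.testBit j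

theorem exists_node (t : ℕ → Bool) (m N : ℕ) : ∃ w, N ≤ w ∧ agree m (dg w) t := by
  let M := max m N
  refine ⟨Nat.ofBits (fun j : Fin (M + 1) => if (j : ℕ) < M then t j else true), ?_, ?_⟩
  · have h := Nat.testBit_ofBits_lt (fun j : Fin (M + 1) => if (j : ℕ) < M then t j else true) M
      (Nat.lt_succ_self M)
    simp only [lt_irrefl, if_false] at h
    have h2 := Nat.ge_two_pow_of_testBit h
    have h3 : M < 2 ^ M := Nat.lt_two_pow_self
    have h4 : N ≤ M := le_max_right _ _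
    omega
  · intro j hj
    have hj' : j < M := hj.trans_le (le_max_left _ _)
    simp only [dg]
    rw [Nat.testBit_ofBits_lt _ j (by omega)]
    simp [hj']

/-- the set of nodes `A` converges to `t` -/
def Conv (t : ℕ → Bool) (A : Set ℕ) : Prop := ∀ m, ∃ N, ∀ w, N ≤ w → w ∈ A → agree m (dg w) t

/-- `g` has zero oscillation at `t` -/
def Good (g : ℕ → ℝ) (t : ℕ → Bool) : Prop :=
  ∀ δ > 0, ∃ m, ∀ w w', m ≤ w → m ≤ w' → agree m (dg w) t → agree m (dg w') t → |g w - g w'| ≤ δ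

/-- `g` tends to `c` along `A` -/
def LimOn (g : ℕ → ℝ) (A : Set ℕ) (c : ℝ) : Prop :=
  ∀ δ > 0, ∃ N, ∀ w, N ≤ w → w ∈ A → |g w - c| ≤ δ

theorem conv_range {t : ℕ → Bool} {u : ℕ → ℕ} (h : ∀ m, agree m (dg (u m)) t) :
    Conv t (range u) := by
  intro m
  refine ⟨(Finset.range m).sup u + 1, ?_⟩
  rintro w hw ⟨n, rfl⟩
  by_cases hn : n < m
  · have := Finset.le_sup (f := u) (Finset.mem_range.2 hn)
    omega
  · exact (h n).mono (not_lt.1 hn)

theorem Conv.union {t : ℕ → Bool} {A B : Set ℕ} (hA : Conv t A) (hB : Conv t B) :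
    Conv t (A ∪ B) := by
  intro m
  obtain ⟨N, hN⟩ := hA m
  obtain ⟨N', hN'⟩ := hB m
  refine ⟨max N N', fun w hw hw' => ?_⟩
  rcases hw' with h | h
  · exact hN w (le_of_max_le_left hw) h
  · exact hN' w (le_of_max_le_right hw) h

theorem exists_plus (t : ℕ → Bool) (g : ℕ → ℝ) :
    ∃ A, Conv t A ∧ (∀ N, ∃ w, N ≤ w ∧ w ∈ A) ∧ (¬ Good g t → ¬ ∃ c, LimOn g A c) := by
  by_cases hg : Good g t
  · choose u hu using fun m => exists_node t m m
    exact ⟨range u, conv_range fun m => (hu m).2, fun N => ⟨u N, (hu N).1, N, rfl⟩,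
      fun h => absurd hg h⟩
  · simp only [Good, not_forall, not_exists, not_le] at hg
    obtain ⟨δ, hδ, h⟩ := hg
    choose u u' h1 h2 h3 h4 h5 using h
    refine ⟨range u ∪ range u', (conv_range h3).union (conv_range h4),
      fun N => ⟨u N, h1 N, Or.inl ⟨N, rfl⟩⟩, fun _ ⟨c, hc⟩ => ?_⟩
    obtain ⟨N, hN⟩ := hc (δ / 2) (by linarith)
    have a1 := hN (u N) (h1 N) (Or.inl ⟨N, rfl⟩)
    have a2 := hN (u' N) (h2 N) (Or.inr ⟨N, rfl⟩)
    have a3 := h5 N
    rw [abs_le] at a1 a2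
    rw [lt_abs] at a3
    rcases a3 with a3 | a3 <;> linarith [a1.1, a1.2, a2.1, a2.2]

theorem exists_minus {t : ℕ → Bool} {A : Set ℕ} (hA : Conv t A) :
    ∃ B, Conv t B ∧ (∀ N, ∃ w, N ≤ w ∧ w ∈ B) ∧ ∀ w ∈ B, w ∉ A := by
  have : ∀ m, ∃ w, m ≤ w ∧ agree m (dg w) t ∧ w ∉ A := by
    intro m
    obtain ⟨N, hN⟩ := hA (m + 1)
    obtain ⟨w, hw, hw'⟩ := exists_node (Function.update t m (!t m)) (m + 1) (max m N)
    refine ⟨w, le_of_max_le_left hw, fun j hj => ?_, fun hwA => ?_⟩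
    · rw [hw' j (by omega), Function.update_of_ne (by omega)]
    · have a1 := hN w (le_of_max_le_right hw) hwA m (Nat.lt_succ_self m)
      have a2 := hw' m (Nat.lt_succ_self m)
      rw [a1, Function.update_self] at a2
      simp at a2
  choose u h1 h2 h3 using this
  refine ⟨range u, conv_range h2, fun N => ⟨u N, h1 N, N, rfl⟩, ?_⟩
  rintro _ ⟨m, rfl⟩
  exact h3 m

theorem continuum_le_bad (g : ℕ → ℝ) (h : ¬ {t | ¬ Good g t}.Countable) :
    𝔠 ≤ #{t | ¬ Good g t} := by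
  let B : ℕ → Set (ℕ → Bool) := fun k => {t | ∀ m, ∃ w w', m ≤ w ∧ m ≤ w' ∧ agree m (dg w) t ∧
    agree m (dg w') t ∧ 1 / ((k : ℝ) + 1) < |g w - g w'|}
  have hB : {t | ¬ Good g t} = ⋃ k, B k := by
    ext t
    simp only [Good, not_forall, not_exists, not_le, mem_ofPred_eq, mem_iUnion, B]
    constructor
    · rintro ⟨δ, hδ, h⟩
      obtain ⟨k, hk⟩ := exists_nat_one_div_lt hδ
      refine ⟨k, fun m => ?_⟩
      obtain ⟨w, w', h1, h2, h3, h4, h5⟩ := h m
      exact ⟨w, w', h1, h2, h3, h4, hk.trans h5⟩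
    · rintro ⟨k, h⟩
      refine ⟨1 / ((k : ℝ) + 1), Nat.one_div_pos_of_nat, fun m => ?_⟩
      obtain ⟨w, w', h1, h2, h3, h4, h5⟩ := h m
      exact ⟨w, w', h1, h2, h3, h4, h5⟩
  have hcl : ∀ k, IsClosed (B k) := by
    intro k
    rw [← isOpen_compl_iff, isOpen_iff_mem_nhds]
    intro t ht
    simp only [B, mem_compl_iff, mem_ofPred_eq, not_forall] at ht
    obtain ⟨m, hm⟩ := ht
    filter_upwards [agree_mem_nhds m t] with s hs hsB
    obtain ⟨w, w', h1, h2, h3, h4, h5⟩ := hsB m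
    exact hm ⟨w, w', h1, h2, h3.trans hs, h4.trans hs, h5⟩
  have : ∃ k, ¬ (B k).Countable := by
    by_contra hne
    push Not at hne
    exact h (hB ▸ countable_iUnion hne)
  obtain ⟨k, hk⟩ := this
  have : PolishSpace (ℕ → Bool) := by
    have : SecondCountableTopology (ℕ → Bool) := inferInstance
    have : TopologicalSpace.IsCompletelyMetrizableSpace (ℕ → Bool) :=
      TopologicalSpace.IsCompletelyMetrizableSpace.pi_countable
    exact PolishSpace.mk
  obtain ⟨f, hf, -, hinj⟩ := (hcl k).exists_nat_bool_injection_of_not_countable hk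
  have h1 : #(range f) ≤ #{t | ¬ Good g t} :=
    Cardinal.mk_le_mk_of_subset (hf.trans (hB ▸ subset_iUnion B k))
  rw [Cardinal.mk_range_eq f hinj] at h1
  simpa using h1

/-- the labelling -/
theorem exists_labels : ∃ σ : (ℕ → Bool) → ℕ → SignType,
    (∀ t, Conv t {w | σ t w ≠ 0}) ∧ (∀ t ε, ε ≠ 0 → ∀ N, ∃ w, N ≤ w ∧ σ t w = ε) ∧
    ∀ g : ℕ → ℝ, (∀ t, ∃ c, LimOn g {w | σ t w = 1} c) → {t | ¬ Good g t}.Countable := by
  classical
  let ι := {g : ℕ → ℝ // ¬ {t | ¬ Good g t}.Countable}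
  have hι : #ι ≤ 𝔠 := by
    refine (Cardinal.mk_subtype_le _).trans ?_
    simp [Cardinal.mk_real]
  obtain ⟨f, hinj, hf⟩ := exists_inj_sel (fun g : ι => {t | ¬ Good g.1 t})
    (fun g => hι.trans (continuum_le_bad g.1 g.2))
  let G : (ℕ → Bool) → ℕ → ℝ := Function.extend f (fun g => g.1) 0
  have hG : ∀ g : ι, G (f g) = g.1 := fun g => hinj.extend_apply _ _ g
  choose A hA1 hA2 hA3 using fun t => exists_plus t (G t)
  choose B hB1 hB2 hB3 using fun t => exists_minus (hA1 t)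
  let σ : (ℕ → Bool) → ℕ → SignType := fun t w =>
    if w ∈ A t then 1 else if w ∈ B t then -1 else 0
  have h1 : ∀ t, {w | σ t w = 1} = A t := by
    intro t; ext w
    simp only [σ, mem_ofPred_eq]
    split_ifs <;> simp [*]
  refine ⟨σ, fun t m => ?_, fun t ε hε N => ?_, fun g hg => ?_⟩
  · obtain ⟨N, hN⟩ := ((hA1 t).union (hB1 t)) m
    refine ⟨N, fun w hw hw' => hN w hw ?_⟩
    simp only [σ, mem_ofPred_eq] at hw'
    by_contra hc
    simp only [mem_union, not_or] at hc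
    simp [hc.1, hc.2] at hw'
  · rcases ε with _ | _ | _
    · exact absurd rfl hε
    · obtain ⟨w, hw, hw'⟩ := hB2 t N
      exact ⟨w, hw, by simp [σ, hw', hB3 t w hw']⟩
    · obtain ⟨w, hw, hw'⟩ := hA2 t N
      exact ⟨w, hw, by simp [σ, hw']⟩
  · by_contra hc
    have := hA3 (f ⟨g, hc⟩)
    rw [hG] at this
    refine this (hf ⟨g, hc⟩) ?_
    rw [← h1]
    exact hg _

end Pool.Agent.H524Z.Chq
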